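import Pool.Agent.L7h33.BD.Fun2

set_option autoImplicit false

/-! Existence of the rearranged forest. -/

namespace Pool.Agent.L7h70.BD

open Pool.Agent.L7h33.BD

section

variable {V : Type}

/-- chains starting at a root -/
def CH (par p : V → V) (r : V) (j : ℕ) (x : ℕ → V) : Prop :=
  x 0 = r ∧ (∀ i < j, p (x i) ≠ x i ∧ Anc par (p (x i)) (x (i + 1)) ∧ Anc par (x (i + 1)) r ∧
    x (i + 1) ≠ r) ∧ (p (x j) = x j ∨ ¬ Anc par (p (x j)) r)

theorem exists_min_chain {par p : V → V} {m : ℕ} (hC : ChainP par p m) (r : V) :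
    ∃ (j : ℕ) (x : ℕ → V), j ≤ m ∧ CH par p r j x ∧ ∀ j' x', CH par p r j' x' → j ≤ j' := by
  classical
  have hex : ∃ j, j ≤ m ∧ ∃ x, CH par p r j x := by
    by_cases h : p r ≠ r ∧ Anc par (p r) r
    · obtain ⟨j, hj, x, h0, h1, h2⟩ := hC r h.1 h.2
      exact ⟨j, hj, x, h0, h1, h2⟩
    · refine ⟨0, Nat.zero_le _, fun _ => r, rfl, fun i hi => absurd hi (Nat.not_lt_zero _), ?_⟩
      by_cases h1 : p r = r
      · exact Or.inl h1
      · right; intro h2; exact h ⟨h1, h2⟩
  obtain ⟨hm, x, hx⟩ := Nat.find_spec hex
  refine ⟨Nat.find hex, x, hm, hx, ?_⟩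
  intro j' x' h'
  by_contra hlt
  push Not at hlt
  exact Nat.find_min hex hlt ⟨by omega, x', h'⟩

/-- shortcuts -/
theorem no_shortcut {par p : V → V} {r : V} {j : ℕ} {x : ℕ → V} (h : CH par p r j x)
    (hmin : ∀ j' x', CH par p r j' x' → j ≤ j') {l l' : ℕ} (hl : l < j) (hl' : l' ≤ j)
    (hs : Anc par (p (x l)) (x l')) : l' ≤ l + 1 := by
  by_contra hlt
  push Not at hlt
  obtain ⟨h0, h1, h2⟩ := h
  set s := l' - (l + 1) with hs'
  have hs0 : 1 ≤ s := by omega
  have := hmin (j - s) (fun i => if i ≤ l then x i else x (i + s)) ⟨by simpa using h0, ?_, ?_⟩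
  · omega
  · intro i hi
    rcases lt_trichotomy i l with hil | rfl | hil
    · have e1 : i ≤ l := hil.le
      have e2 : i + 1 ≤ l := hil
      simp only [e1, e2, if_true]
      exact h1 i (by omega)
    · have e2 : ¬ (i + 1 ≤ i) := by omega
      simp only [le_refl, e2, if_true, if_false]
      have e3 : i + 1 + s = l' := by omega
      rw [e3]
      have h3 := h1 (l' - 1) (by omega)
      have e4 : l' - 1 + 1 = l' := by omega
      rw [e4] at h3
      exact ⟨(h1 i hl).1, hs, h3.2.2.1, h3.2.2.2⟩
    · have e1 : ¬ i ≤ l := by omega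
      have e2 : ¬ i + 1 ≤ l := by omega
      simp only [e1, e2, if_false]
      have e3 : i + 1 + s = i + s + 1 := by omega
      rw [e3]
      exact h1 (i + s) (by omega)
  · have e1 : ¬ j - s ≤ l := by omega
    simp only [e1, if_false]
    have e2 : j - s + s = j := by omega
    rw [e2]
    exact h2

theorem anc1 {par par1 : V → V} (h : ∀ v, par1 v = v ∨ par1 v = par v) {u w : V}
    (ha : Anc par1 u w) : Anc par u w := by
  obtain ⟨n, rfl⟩ := ha
  induction n with
  | zero => exact Anc.refl _ _
  | succ n ih =>
    rw [Function.iterate_succ_apply']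
    rcases h (par1^[n] u) with h1 | h1
    · rw [h1]; exact ih
    · rw [h1]; exact ih.up

theorem between {par par1 : V → V} {l : V → ℕ} (hl : Lv par l)
    (h : ∀ v, par1 v = v ∨ par1 v = par v) {w a : V} (hwa : Anc par w a) :
    ∀ (n : ℕ) (u : V), par1^[n] u = a → Anc par u w → Anc par1 u w ∧ Anc par1 w a := by
  intro n
  induction n with
  | zero =>
    intro u hu huw
    have hu' : u = a := hu
    subst hu'
    have := hl.antisymm huw hwa
    subst this
    exact ⟨Anc.refl _ _, Anc.refl _ _⟩
  | succ n ih =>
    intro u hu huw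
    rcases h u with h1 | h1
    · rw [Function.iterate_succ_apply, h1] at hu
      exact ih u hu huw
    · rcases huw.eq_or with h2 | h2
      · subst h2
        exact ⟨Anc.refl _ _, ⟨n + 1, hu⟩⟩
      · rw [← h1] at h2
        rw [Function.iterate_succ_apply] at hu
        obtain ⟨g1, g2⟩ := ih (par1 u) hu h2
        exact ⟨Anc.of_step g1, g2⟩

theorem chain1 {par par1 p : V → V} {l : V → ℕ} (hl : Lv par l)
    (h : ∀ v, par1 v = v ∨ par1 v = par v) {m : ℕ} (hC : ChainP par p m) : ChainP par1 p m := by
  classical
  intro a ha haa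
  obtain ⟨j, hj, x, h0, h1, h2⟩ := hC a ha (anc1 h haa)
  have hex : ∃ j', j' ≤ j ∧ (p (x j') = x j' ∨ ¬ Anc par1 (p (x j')) a) := by
    refine ⟨j, le_rfl, ?_⟩
    rcases h2 with h2 | h2
    · exact Or.inl h2
    · exact Or.inr fun h3 => h2 (anc1 h h3)
  obtain ⟨hj1, hj2⟩ := Nat.find_spec hex
  refine ⟨Nat.find hex, hj1.trans hj, x, h0, ?_, hj2⟩
  intro i hi
  have h3 := Nat.find_min hex hi
  have hij : i < j := by omega
  have h4 : Anc par1 (p (x i)) a := by
    by_contra h5
    exact h3 ⟨hij.le, Or.inr h5⟩
  obtain ⟨g1, g2, g3, g4⟩ := h1 i hij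
  obtain ⟨n, hn⟩ := h4
  obtain ⟨k1, k2⟩ := between hl h g3 n _ hn g2
  exact ⟨g1, k1, k2, g4⟩

end

section step

variable {V : Type} (par p : V → V) (m : ℕ) (l : V → ℕ) (root : V → V) (J : V → ℕ) (X : V → ℕ → V)

/-- the data of the step -/
structure Data : Prop where
  hl : Lv par l
  r1 : ∀ v, Anc par v (root v)
  r2 : ∀ v, par (root v) = root v
  j1 : ∀ r, J r ≤ m
  ch : ∀ r, CH par p r (J r) (X r)
  mn : ∀ r j' x', CH par p r j' x' → J r ≤ j'

/-- special vertices: roots and chain vertices -/
def S (v : V) : Prop := ∃ i, i ≤ J (root v) ∧ X (root v) i = v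

variable {par p m l root J X}

theorem Data.root_eq (D : Data par p m l root J X) {v r : V} (h : Anc par v r) (hr : par r = r) :
    root v = r := root_unique (D.r1 v) (D.r2 v) h hr

theorem Data.root_anc (D : Data par p m l root J X) {v w : V} (h : Anc par v w) :
    root v = root w := D.root_eq (h.trans (D.r1 w)) (D.r2 w)

theorem Data.root_root (D : Data par p m l root J X) {r : V} (hr : par r = r) : root r = r :=
  D.root_eq (Anc.refl _ _) hr

theorem Data.anc_iff (D : Data par p m l root J X) {v r : V} (hr : par r = r) :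
    Anc par v r ↔ root v = r := ⟨fun h => D.root_eq h hr, fun h => h ▸ D.r1 v⟩

theorem Data.X_anc (D : Data par p m l root J X) {r : V} (hr : par r = r) {i : ℕ} (hi : i ≤ J r) :
    Anc par (X r i) r := by
  cases i with
  | zero => rw [(D.ch r).1]; exact Anc.refl _ _
  | succ i => exact ((D.ch r).2.1 i hi).2.2.1

theorem Data.X_root (D : Data par p m l root J X) {r : V} (hr : par r = r) {i : ℕ} (hi : i ≤ J r) :
    root (X r i) = r := D.root_eq (D.X_anc hr hi) hr

theorem Data.X_S (D : Data par p m l root J X) {r : V} (hr : par r = r) {i : ℕ} (hi : i ≤ J r) :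
    S root J X (X r i) := by
  refine ⟨i, ?_, ?_⟩
  · rw [D.X_root hr hi]; exact hi
  · rw [D.X_root hr hi]

theorem Data.X_ne (D : Data par p m l root J X) {r : V} {i : ℕ} (hi : i ≤ J r) (h1 : 1 ≤ i) :
    X r i ≠ r := by
  have := ((D.ch r).2.1 (i - 1) (by omega)).2.2.2
  rwa [Nat.sub_add_cancel h1] at this

theorem Data.X_par (D : Data par p m l root J X) {r : V} (hr : par r = r) {i : ℕ} (hi : i ≤ J r)
    (h1 : 1 ≤ i) : par (X r i) ≠ X r i := by
  intro h
  have h2 := (D.X_anc hr hi).of_fix h
  exact D.X_ne hi h1 h2.symm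

theorem Data.short (D : Data par p m l root J X) {r : V} {a b : ℕ} (ha : a < J r) (hb : b ≤ J r)
    (h : Anc par (p (X r a)) (X r b)) : b ≤ a + 1 := no_shortcut (D.ch r) (D.mn r) ha hb h

/-- (F1) -/
theorem Data.F1 (D : Data par p m l root J X) {r : V} {i k : ℕ} (hi1 : 1 ≤ i) (hi : i ≤ J r)
    (hk : k ≤ J r) (h : Anc par (X r i) (X r k)) : k ≤ i := by
  have h1 := ((D.ch r).2.1 (i - 1) (by omega)).2.1
  rw [Nat.sub_add_cancel hi1] at h1
  have := D.short (a := i - 1) (by omega) hk (h1.trans h)
  omega

theorem Data.X_inj (D : Data par p m l root J X) {r : V} {i k : ℕ} (hi : i ≤ J r) (hk : k ≤ J r)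
    (h : X r i = X r k) : i = k := by
  have key : ∀ i k, i ≤ J r → k ≤ J r → X r i = X r k → k ≤ i := by
    intro i k hi hk h
    rcases Nat.eq_zero_or_pos i with rfl | hi1
    · by_contra hlt
      exact D.X_ne hk (by omega) (by rw [← h]; exact (D.ch r).1)
    · exact D.F1 hi1 hi hk (by rw [h]; exact Anc.refl _ _)
  exact le_antisymm (key k i hk hi h.symm) (key i k hi hk h)

/-- (F2) -/
theorem Data.F2 (D : Data par p m l root J X) {r : V} {i k : ℕ} (hi : i < J r) (hk1 : 1 ≤ k)
    (hk : k ≤ J r) (h1 : Anc par (p (X r i)) (X r k)) (h2 : Anc par (X r k) (X r (i + 1))) :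
    k = i + 1 := by
  have g1 := D.short hi hk h1
  have g2 := ((D.ch r).2.1 (k - 1) (by omega)).2.1
  rw [Nat.sub_add_cancel hk1] at g2
  have g3 := D.short (a := k - 1) (b := i + 1) (by omega) (by omega) (g2.trans h2)
  omega

theorem Data.S_root (D : Data par p m l root J X) {v : V} (hv : par v = v) : S root J X v :=
  ⟨0, Nat.zero_le _, by rw [(D.ch _).1]; exact D.root_root hv⟩

open scoped Classical in
/-- the smaller forest -/
noncomputable def par1 (par root : V → V) (J : V → ℕ) (X : V → ℕ → V) (v : V) : V :=
  if S root J X v ∨ S root J X (par v) then v else par v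

theorem par1_or (v : V) : par1 par root J X v = v ∨ par1 par root J X v = par v := by
  unfold par1
  split_ifs
  · exact Or.inl rfl
  · exact Or.inr rfl

theorem par1_of_S {v : V} (h : S root J X v) : par1 par root J X v = v := by
  unfold par1; rw [if_pos (Or.inl h)]

theorem par1_of_S' {v : V} (h : S root J X (par v)) : par1 par root J X v = v := by
  unfold par1; rw [if_pos (Or.inr h)]

theorem par1_ne {v : V} (h : par1 par root J X v ≠ v) :
    ¬ S root J X v ∧ ¬ S root J X (par v) ∧ par1 par root J X v = par v := by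
  unfold par1 at h ⊢
  split_ifs at h ⊢ with h1
  · exact absurd rfl h
  · push Not at h1
    exact ⟨h1.1, h1.2, rfl⟩

theorem par1_not {v : V} (h1 : ¬ S root J X v) (h2 : ¬ S root J X (par v)) :
    par1 par root J X v = par v := by
  unfold par1
  rw [if_neg]
  push Not
  exact ⟨h1, h2⟩

theorem Data.dp1 (D : Data par p m l root J X) {N : ℕ} (hN : ∀ v, l v ≤ N + 1) :
    Dp (par1 par root J X) N := by
  refine ⟨fun v => l v - 1, fun v => by have := hN v; show l v - 1 ≤ N; omega, ?_⟩
  intro v hv
  obtain ⟨_, h2, h3⟩ := par1_ne hv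
  rw [h3] at hv
  have h4 := D.hl.suc v hv
  have h5 : par (par v) ≠ par v := fun h => h2 (D.S_root h)
  have h6 := D.hl.suc _ h5
  show l (par1 par root J X v) - 1 < l v - 1
  rw [h3]
  omega

/-- special vertices are isolated -/
theorem iso {u a : V} (ha : S root J X a) (h : Anc (par1 par root J X) u a) : u = a := by
  obtain ⟨n, hn⟩ := h
  induction n with
  | zero => exact hn
  | succ n ih =>
    rw [Function.iterate_succ_apply'] at hn
    apply ih
    by_contra hne
    have h1 : par1 par root J X ((par1 par root J X)^[n] u) ≠ (par1 par root J X)^[n] u := by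
      rw [hn]; exact fun h => hne h.symm
    obtain ⟨_, h2, h3⟩ := par1_ne h1
    rw [h3] at hn
    rw [hn] at h2
    exact h2 ha

variable {ρ1 own1 tgt1 : V → V} {Cut1 : Set V} {M : ℕ}

theorem fix_iff (R : RS (par1 par root J X) p ρ1 Cut1 own1 tgt1 M) (v : V) :
    ρ1 v = v ↔ par1 par root J X v = v := by
  by_cases hv : v ∈ Cut1
  · have := R.cut v hv
    exact ⟨fun h => absurd h this.2.1, fun h => absurd h this.1⟩
  · rw [(R.ncut v hv).1]

theorem rt_anc (R : RS (par1 par root J X) p ρ1 Cut1 own1 tgt1 M) {u w s : V}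
    (hs : par1 par root J X s = s) (h : Anc ρ1 u w) :
    Anc (par1 par root J X) u s ↔ Anc (par1 par root J X) w s := by
  obtain ⟨n, rfl⟩ := h
  induction n with
  | zero => exact Iff.rfl
  | succ n ih =>
    rw [Function.iterate_succ_apply', ← R.rt _ s hs]
    exact ih

theorem own_anc (R : RS (par1 par root J X) p ρ1 Cut1 own1 tgt1 M) {s : V}
    (hs : par1 par root J X s = s) (v : V) :
    Anc (par1 par root J X) v s ↔ Anc (par1 par root J X) (own1 v) s := by
  obtain ⟨φ, _, hφ⟩ := R.dep
  induction hk : φ v using Nat.strong_induction_on generalizing v with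
  | _ k ih =>
    by_cases hv : v ∈ Cut1
    · obtain ⟨_, h2, h3⟩ := R.cut v hv
      rw [R.rt v s hs, ← h3]
      have := hφ v h2
      exact ih (φ (ρ1 v)) (by omega) (ρ1 v) rfl
    · rw [(R.ncut v hv).2]

theorem own_S (R : RS (par1 par root J X) p ρ1 Cut1 own1 tgt1 M) {v : V}
    (h : S root J X (own1 v)) : own1 v = v := by
  have h1 := (own_anc R (par1_of_S h) v).2 (Anc.refl _ _)
  exact (iso h h1).symm

theorem rho_iso (R : RS (par1 par root J X) p ρ1 Cut1 own1 tgt1 M) {u a : V}
    (ha : S root J X a) (h : Anc ρ1 u a) : u = a :=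
  iso ha ((rt_anc R (par1_of_S ha) h).2 (Anc.refl _ _))

open scoped Classical in
/-- the index -/
noncomputable def idx (root : V → V) (J : V → ℕ) (X : V → ℕ → V) (v : V) : ℕ :=
  if h : S root J X v then h.choose else 0

theorem idx_spec {v : V} (h : S root J X v) :
    idx root J X v ≤ J (root v) ∧ X (root v) (idx root J X v) = v := by
  unfold idx
  rw [dif_pos h]
  exact h.choose_spec

theorem Data.idx_X (D : Data par p m l root J X) {r : V} (hr : par r = r) {i : ℕ} (hi : i ≤ J r) :
    idx root J X (X r i) = i := by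
  obtain ⟨h1, h2⟩ := idx_spec (D.X_S hr hi)
  rw [D.X_root hr hi] at h1 h2
  exact D.X_inj h1 hi h2

open scoped Classical in
/-- the new forest -/
noncomputable def rho (par root : V → V) (J : V → ℕ) (X : V → ℕ → V) (ρ1 : V → V) (v : V) : V :=
  if par1 par root J X v ≠ v then ρ1 v else
    if S root J X v then X (root v) (idx root J X v - 1) else par v

theorem rho_ne {v : V} (h : par1 par root J X v ≠ v) : rho par root J X ρ1 v = ρ1 v := by
  unfold rho; rw [if_pos h]

theorem rho_S {v : V} (h : S root J X v) :
    rho par root J X ρ1 v = X (root v) (idx root J X v - 1) := by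
  unfold rho
  rw [if_neg (by rw [not_not]; exact par1_of_S h), if_pos h]

theorem rho_nS {v : V} (h1 : par1 par root J X v = v) (h : ¬ S root J X v) :
    rho par root J X ρ1 v = par v := by
  unfold rho
  rw [if_neg (by rw [not_not]; exact h1), if_neg h]

theorem Data.rho_X (D : Data par p m l root J X) {r : V} (hr : par r = r) {i : ℕ} (hi : i ≤ J r) :
    rho par root J X ρ1 (X r i) = X r (i - 1) := by
  rw [rho_S (D.X_S hr hi), D.idx_X hr hi, D.X_root hr hi]

theorem Data.rho_X_anc (D : Data par p m l root J X) {r : V} (hr : par r = r) {i k : ℕ}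
    (hi : i ≤ J r) (hk : k ≤ i) : Anc (rho par root J X ρ1) (X r i) (X r k) := by
  obtain ⟨n, rfl⟩ := Nat.exists_eq_add_of_le hk
  induction n with
  | zero => exact Anc.refl _ _
  | succ n ih =>
    apply Anc.of_step
    rw [D.rho_X hr hi]
    exact ih (by omega) (by omega)

theorem anc_rho (R : RS (par1 par root J X) p ρ1 Cut1 own1 tgt1 M) {u w : V} (h : Anc ρ1 u w) :
    Anc (rho par root J X ρ1) u w := by
  obtain ⟨n, rfl⟩ := h
  induction n with
  | zero => exact Anc.refl _ _
  | succ n ih =>
    rw [Function.iterate_succ_apply']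
    by_cases hf : ρ1 (ρ1^[n] u) = ρ1^[n] u
    · rw [hf]; exact ih
    · have h1 : par1 par root J X (ρ1^[n] u) ≠ ρ1^[n] u := fun h => hf ((fix_iff R _).2 h)
      rw [← rho_ne (ρ1 := ρ1) h1]
      exact ih.up

theorem Data.leave (D : Data par p m l root J X)
    (R : RS (par1 par root J X) p ρ1 Cut1 own1 tgt1 M) {u w : V}
    (h : Anc (rho par root J X ρ1) u w) : Anc ρ1 u w ∨ S root J X w := by
  obtain ⟨n, rfl⟩ := h
  induction n with
  | zero => exact Or.inl (Anc.refl _ _)
  | succ n ih =>
    rw [Function.iterate_succ_apply']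
    set w' := (rho par root J X ρ1)^[n] u with hw'
    by_cases hS : S root J X w'
    · right
      rw [rho_S hS]
      obtain ⟨h1, h2⟩ := idx_spec hS
      exact D.X_S (D.r2 w') (by omega)
    · have hA := ih.resolve_right hS
      by_cases hf : par1 par root J X w' = w'
      · right
        rw [rho_nS hf hS]
        by_contra hn
        have h3 : par w' = w' := by
          rw [← par1_not hS hn]; exact hf
        exact hS (D.S_root h3)
      · left
        rw [rho_ne hf]
        exact hA.up

theorem Data.rho_root (D : Data par p m l root J X)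
    (R : RS (par1 par root J X) p ρ1 Cut1 own1 tgt1 M) (v : V) :
    root (rho par root J X ρ1 v) = root v := by
  by_cases hf : par1 par root J X v = v
  · by_cases hS : S root J X v
    · rw [rho_S hS]
      exact D.X_root (D.r2 v) (by have := (idx_spec hS).1; omega)
    · rw [rho_nS hf hS]
      exact (D.root_anc (Anc.step par v)).symm
  · rw [rho_ne hf]
    obtain ⟨s, hs1, hs2⟩ := (D.hl.acy.mono (par1_or (par := par) (root := root) (J := J) (X := X))).exists_root v
    have h1 := (R.rt v s hs2).1 hs1
    rw [D.root_anc (anc1 par1_or hs1), D.root_anc (anc1 par1_or h1)]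

/-- (K), first part -/
theorem Data.K1 (D : Data par p m l root J X) {z : V} (hz : S root J X z) : ∀ (n : ℕ) (u : V),
    par^[n] u = z → u ≠ z → (∀ y, Anc par u y → Anc par y z → S root J X y → y = z) →
    ∃ w, par w = z ∧ w ≠ z ∧ ¬ S root J X w ∧ Anc (par1 par root J X) u w := by
  intro n
  induction n with
  | zero => intro u h1 h2; exact absurd h1 h2
  | succ n ih =>
    intro u h1 h2 h3
    have huz : Anc par u z := ⟨n + 1, h1⟩
    have hSu : ¬ S root J X u := fun h => h2 (h3 u (Anc.refl _ _) huz h)
    by_cases hpu : par u = z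
    · exact ⟨u, hpu, h2, hSu, Anc.refl _ _⟩
    · rw [Function.iterate_succ_apply] at h1
      obtain ⟨w, g1, g2, g3, g4⟩ := ih (par u) h1 hpu (fun y hy => h3 y (Anc.of_step hy))
      refine ⟨w, g1, g2, g3, ?_⟩
      apply Anc.of_step
      have hSpu : ¬ S root J X (par u) := fun h => hpu (h3 _ (Anc.step par u) ⟨n, h1⟩ h)
      rw [par1_not hSu hSpu]
      exact g4

theorem Data.K (D : Data par p m l root J X)
    (R : RS (par1 par root J X) p ρ1 Cut1 own1 tgt1 M) {z u : V} (hz : S root J X z)
    (huz : Anc par u z) (hne : u ≠ z)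
    (h3 : ∀ y, Anc par u y → Anc par y z → S root J X y → y = z) :
    ∃ w, w ∉ Cut1 ∧ ¬ S root J X w ∧ rho par root J X ρ1 w = z ∧ w ≠ z ∧
      Anc (rho par root J X ρ1) u w := by
  obtain ⟨n, hn⟩ := huz
  obtain ⟨w, g1, g2, g3, g4⟩ := D.K1 hz n u hn hne h3
  have hw1 : par1 par root J X w = w := par1_of_S' (by rw [g1]; exact hz)
  refine ⟨w, fun h => (R.cut w h).1 hw1, g3, by rw [rho_nS hw1 g3, g1], g2, ?_⟩
  apply anc_rho R
  obtain ⟨s, hs1, hs2⟩ := (Acy.of_dp R.dep).exists_root u
  have h4 := (rt_anc R hw1 hs1).1 g4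
  have h5 := h4.of_fix ((fix_iff R s).1 hs2)
  rw [h5]
  exact hs1

open scoped Classical in
/-- owners -/
noncomputable def own (root : V → V) (J : V → ℕ) (X : V → ℕ → V) (own1 : V → V) (v : V) : V :=
  if S root J X v then root v else own1 v

open scoped Classical in
/-- targets -/
noncomputable def tgt (par p : V → V) (J : V → ℕ) (X : V → ℕ → V) (tgt1 : V → V) (v : V) : V :=
  if par v = v then p (X v (J v)) else tgt1 v

theorem own_of {v : V} (h : S root J X v) : own root J X own1 v = root v := by
  unfold own; rw [if_pos h]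

theorem own_not {v : V} (h : ¬ S root J X v) : own root J X own1 v = own1 v := by
  unfold own; rw [if_neg h]

theorem Data.S_eq (_D : Data par p m l root J X) {v : V} (h : S root J X v) :
    ∃ r i, par r = r ∧ root v = r ∧ i ≤ J r ∧ v = X r i ∧ (par v ≠ v → 1 ≤ i) := by
  obtain ⟨i, hi, hx⟩ := h
  refine ⟨root v, i, _D.r2 v, rfl, hi, hx.symm, ?_⟩
  intro hv
  by_contra h0
  have : i = 0 := by omega
  subst this
  rw [(_D.ch _).1] at hx
  apply hv
  rw [← hx]
  exact _D.r2 v

theorem Data.step (D : Data par p m l root J X)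
    (R : RS (par1 par root J X) p ρ1 Cut1 own1 tgt1 M) :
    RS par p (rho par root J X ρ1) (Cut1 ∪ {v | S root J X v ∧ par v ≠ v})
      (own root J X own1) (tgt par p J X tgt1) (M + m + 1) := by
  classical
  have hcutS : ∀ v ∈ Cut1, ¬ S root J X v := fun v hv h => (R.cut v hv).1 (par1_of_S h)
  have hcutpar : ∀ v ∈ Cut1, par v ≠ v ∧ par1 par root J X v = par v ∧
      rho par root J X ρ1 v = ρ1 v := by
    intro v hv
    have h1 := (R.cut v hv).1
    obtain ⟨_, _, h3⟩ := par1_ne h1
    refine ⟨?_, h3, rho_ne h1⟩
    rw [← h3]; exact h1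
  refine ⟨?_, ?_, ?_, ?_, ?_, ?_⟩
  · -- dep
    obtain ⟨φ1, hφ1, hφ2⟩ := R.dep
    refine ⟨fun v => if par1 par root J X v ≠ v then φ1 v + m + 1 else
      if S root J X v then idx root J X v else m + 1, ?_, ?_⟩
    · intro v
      show (if par1 par root J X v ≠ v then φ1 v + m + 1 else
        if S root J X v then idx root J X v else m + 1) ≤ _
      split_ifs with h1 h2
      · have := hφ1 v; omega
      · have := (idx_spec h2).1
        have := D.j1 (root v)
        omega
      · omega
    · intro v hv
      have hidx : ∀ w, S root J X w → idx root J X w ≤ m := fun w hw =>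
        (idx_spec hw).1.trans (D.j1 _)
      show (if par1 par root J X (rho par root J X ρ1 v) ≠ rho par root J X ρ1 v then
          φ1 (rho par root J X ρ1 v) + m + 1 else
          if S root J X (rho par root J X ρ1 v) then idx root J X (rho par root J X ρ1 v) else m + 1) <
        (if par1 par root J X v ≠ v then φ1 v + m + 1 else
          if S root J X v then idx root J X v else m + 1)
      by_cases h1 : par1 par root J X v ≠ v
      · rw [if_pos h1, rho_ne h1]
        have h2 : ρ1 v ≠ v := fun h => h1 ((fix_iff R v).1 h)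
        have h3 := hφ2 v h2
        split_ifs with h4 h5
        · omega
        · have := hidx _ h5; omega
        · omega
      · rw [not_not] at h1
        rw [if_neg (not_not.2 h1)]
        by_cases h2 : S root J X v
        · rw [if_pos h2]
          obtain ⟨r, i, hr, _, hi, hvx, _⟩ := D.S_eq h2
          rw [hvx, D.rho_X hr hi] at hv ⊢
          have hi1 : 1 ≤ i := by
            by_contra h0
            have : i = 0 := by omega
            subst this
            exact hv rfl
          have hS1 : S root J X (X r (i - 1)) := D.X_S hr (by omega)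
          rw [if_neg (not_not.2 (par1_of_S hS1)), if_pos hS1, D.idx_X hr hi, D.idx_X hr (by omega)]
          omega
        · rw [if_neg h2]
          have hSp : S root J X (par v) := by
            by_contra hn
            have h3 : par v = v := by rw [← par1_not h2 hn]; exact h1
            exact h2 (D.S_root h3)
          rw [rho_nS h1 h2, if_neg (not_not.2 (par1_of_S hSp)), if_pos hSp]
          have := hidx _ hSp
          omega
  · -- ncut
    intro v hv
    rw [Set.mem_union, not_or] at hv
    obtain ⟨hv1, hv2⟩ := hv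
    obtain ⟨h1, h2⟩ := R.ncut v hv1
    by_cases hS : S root J X v
    · have hpv : par v = v := by
        by_contra h
        exact hv2 ⟨hS, h⟩
      constructor
      · rw [rho_S hS, hpv]
        obtain ⟨r, i, hr, hrv, hi, hvx, _⟩ := D.S_eq hS
        have hvr : v = r := by rw [← hrv]; exact (D.root_root hpv).symm
        have h0 : idx root J X v = 0 := by
          have h3 : v = X r 0 := by rw [(D.ch r).1]; exact hvr
          rw [h3]
          exact D.idx_X hr (Nat.zero_le _)
        rw [h0, hrv, (D.ch r).1, hvr]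
      · rw [own_of hS]; exact D.root_root hpv
    · constructor
      · by_cases h3 : par1 par root J X v = v
        · exact rho_nS h3 hS
        · rw [rho_ne h3, h1]
          exact (par1_ne h3).2.2
      · rw [own_not hS]; exact h2
  · -- cut
    intro v hv
    rcases hv with hv | ⟨hS, hpv⟩
    · obtain ⟨h1, h2, h3⟩ := hcutpar v hv
      obtain ⟨_, k2, k3⟩ := R.cut v hv
      have hS1 : ¬ S root J X (ρ1 v) := fun h => k2 (rho_iso R h (Anc.step ρ1 v)).symm
      refine ⟨h1, ?_, ?_⟩
      · rw [h3]; exact k2
      · rw [h3, own_not hS1, own_not (hcutS v hv)]; exact k3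
    · obtain ⟨r, i, hr, hrv, hi, hvx, hi1⟩ := D.S_eq hS
      have hi1 := hi1 hpv
      refine ⟨hpv, ?_, ?_⟩
      · rw [hvx, D.rho_X hr hi]
        intro h
        have := D.X_inj (by omega) hi h
        omega
      · rw [own_of hS, hvx, D.rho_X hr hi, own_of (D.X_S hr (by omega)), D.X_root hr (by omega),
          D.X_root hr hi]
  · -- att
    intro v hv
    rcases hv with hv | ⟨hS, hpv⟩
    · obtain ⟨h1, h2, h3⟩ := hcutpar v hv
      obtain ⟨y, y1, y2, y3, y4⟩ := R.att v hv
      obtain ⟨_, _, k3⟩ := hcutpar y y1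
      refine ⟨y, Or.inl y1, ?_, anc_rho R y3, ?_⟩
      · rw [own_not (hcutS y y1), own_not (hcutS v hv)]; exact y2
      · rcases y4 with y4 | ⟨w, w1, w2, w3, w4⟩
        · left
          rw [← h2, y4, k3]
        · right
          have hw : par1 par root J X w ≠ w := by
            intro h
            have := (fix_iff R w).2 h
            rw [this] at w2
            exact w3 w2
          refine ⟨w, ?_, ?_, ?_, ?_⟩
          · rintro (h | ⟨h, _⟩)
            · exact w1 h
            · exact (par1_ne hw).1 h
          · rw [rho_ne hw, k3]; exact w2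
          · rw [k3]; exact w3
          · rw [← h2]; exact anc_rho R w4
    · obtain ⟨r, i, hr, hrv, hi, hvx, hi1⟩ := D.S_eq hS
      have hi1 := hi1 hpv
      -- first special vertex above par v
      have hex : ∃ n, S root J X (par^[n] (par v)) := by
        obtain ⟨n, hn⟩ := D.r1 (par v)
        exact ⟨n, by rw [hn]; exact D.S_root (D.r2 _)⟩
      set z := par^[Nat.find hex] (par v) with hz
      have hSz : S root J X z := Nat.find_spec hex
      have huz : Anc par (par v) z := ⟨_, rfl⟩
      have hfirst : ∀ y, Anc par (par v) y → Anc par y z → S root J X y → y = z := by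
        rintro y ⟨a, rfl⟩ hyz hSy
        have h1 : Nat.find hex ≤ a := Nat.find_min' hex hSy
        apply D.hl.antisymm hyz
        refine ⟨a - Nat.find hex, ?_⟩
        rw [hz, ← Function.iterate_add_apply]
        congr 1
        omega
      obtain ⟨r', k, hr', hrz, hk, hzx, _⟩ := D.S_eq hSz
      have hvz : Anc par v z := Anc.of_step huz
      have hrr : r' = r := by rw [← hrz, ← hrv]; exact (D.root_anc hvz).symm
      subst hrr
      have hki : k < i := by
        have h1 : k ≤ i := D.F1 hi1 hi hk (by rw [← hvx, ← hzx]; exact hvz)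
        rcases h1.lt_or_eq with h2 | h2
        · exact h2
        · exfalso
          have h3 : z = v := by rw [hzx, hvx, h2]
          have h4 := D.hl.anc_le huz
          rw [h3] at h4
          have h5 := D.hl.pot hpv
          omega
      have hSy : S root J X (X r' (k + 1)) := D.X_S hr (by omega)
      have hρy : rho par root J X ρ1 (X r' (k + 1)) = z := by
        rw [D.rho_X hr (by omega), hzx, Nat.add_sub_cancel]
      refine ⟨X r' (k + 1), Or.inr ⟨hSy, D.X_par hr (by omega) (by omega)⟩, ?_, ?_, ?_⟩
      · rw [own_of hSy, own_of hS, D.X_root hr (by omega), hrv]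
      · rw [hvx]; exact D.rho_X_anc hr hi (by omega)
      · rw [hρy]
        by_cases hpz : par v = z
        · exact Or.inl hpz
        · right
          obtain ⟨w, w1, w2, w3, w4, w5⟩ := D.K R hSz huz hpz hfirst
          refine ⟨w, ?_, w3, w4, w5⟩
          rintro (h | ⟨h, _⟩)
          · exact w1 h
          · exact w2 h
  · -- arc
    intro v hpv
    by_cases hS : S root J X v
    · obtain ⟨r, i, hr, hrv, hi, hvx, _⟩ := D.S_eq hS
      rw [own_of hS, hrv]
      rcases hi.lt_or_eq with hlt | heq
      · right
        have hSy : S root J X (X r (i + 1)) := D.X_S hr hlt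
        have hstep := (D.ch r).2.1 i hlt
        refine ⟨X r (i + 1), Or.inr ⟨hSy, D.X_par hr hlt (by omega)⟩, ?_, ?_, ?_⟩
        · have h9 := D.rho_X (ρ1 := ρ1) hr (i := i + 1) hlt
          rw [h9, hvx, Nat.add_sub_cancel]
        · rw [own_of hSy, D.X_root hr hlt]
        · rw [hvx]
          by_cases hpe : p (X r i) = X r (i + 1)
          · rw [hpe]; exact Anc.refl _ _
          · obtain ⟨w, _, _, w3, _, w5⟩ := D.K R hSy hstep.2.1 hpe (by
              intro y hy1 hy2 hy3
              obtain ⟨r', k, hr', hry, hk, hyx, _⟩ := D.S_eq hy3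
              have hrr : r' = r := by
                rw [← hry, ← D.X_root hr hlt]
                exact D.root_anc hy2
              subst hrr
              have hk1 : 1 ≤ k := by
                by_contra h0
                have h0' : k = 0 := by omega
                subst h0'
                rw [(D.ch r').1] at hyx
                rw [hyx] at hy2
                exact hstep.2.2.2 (hy2.of_fix hr)
              rw [hyx] at hy1 hy2 ⊢
              rw [D.F2 hlt hk1 hk hy1 hy2])
            exact w5.trans (w3 ▸ Anc.step _ w)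
      · left
        have hterm := (D.ch r).2.2
        rw [← heq, ← hvx] at hterm
        have hterm := hterm.resolve_left hpv
        constructor
        · unfold tgt
          rw [if_pos hr, ← heq, ← hvx]
        · intro h
          apply hterm
          rw [D.anc_iff hr]
          have key : ∀ n, root ((rho par root J X ρ1)^[n] (p v)) = root (p v) := by
            intro n
            induction n with
            | zero => rfl
            | succ n ih => rw [Function.iterate_succ_apply', D.rho_root R]; exact ih
          obtain ⟨n, hn⟩ := h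
          have := key n
          rw [hn, D.root_root hr] at this
          exact this.symm
    · rw [own_not hS]
      rcases R.arc v hpv with ⟨a1, a2⟩ | ⟨y, y1, y2, y3, y4⟩
      · left
        have hnS : ¬ S root J X (own1 v) := by
          intro h
          have := own_S R h
          rw [this] at h
          exact hS h
        constructor
        · unfold tgt
          rw [if_neg (fun h => hnS (D.S_root h))]
          exact a1
        · intro h
          rcases D.leave R h with h1 | h1
          · exact a2 h1
          · exact hnS h1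
      · right
        obtain ⟨_, _, k3⟩ := hcutpar y y1
        refine ⟨y, Or.inl y1, by rw [k3]; exact y2, ?_, anc_rho R y4⟩
        rw [own_not (hcutS y y1)]; exact y3
  · -- rt
    intro v r hr
    rw [D.anc_iff hr, D.anc_iff hr, D.rho_root R]

end step

theorem exists_RS (N m : ℕ) : ∃ M, ∀ (V : Type) [Fintype V] (par p : V → V), Dp par N →
    ChainP par p m → ∃ (ρ : V → V) (Cut : Set V) (own tgt : V → V), RS par p ρ Cut own tgt M := by
  induction N with
  | zero =>
    refine ⟨0, ?_⟩
    intro V _ par p hD _
    have hid : ∀ v, par v = v := by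
      obtain ⟨φ, h1, h2⟩ := hD
      intro v
      by_contra hv
      have h3 := h2 v hv
      have h4 := h1 v
      omega
    have hanc : ∀ v w, Anc par v w → v = w := fun v w h => (h.of_fix (hid v)).symm
    refine ⟨par, ∅, fun v => v, p, ?_, ?_, ?_, ?_, ?_, ?_⟩
    · exact ⟨fun _ => 0, fun _ => le_rfl, fun v hv => absurd (hid v) hv⟩
    · intro v _; exact ⟨rfl, rfl⟩
    · intro v hv; exact absurd hv (Set.notMem_empty v)
    · intro v hv; exact absurd hv (Set.notMem_empty v)
    · intro v hv
      left
      exact ⟨rfl, fun h => hv (hanc _ _ h)⟩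
    · intro v r _
      rw [hid v]
  | succ N ih =>
    obtain ⟨M, hM⟩ := ih
    refine ⟨M + m + 1, ?_⟩
    intro V _ par p hD hC
    obtain ⟨l, hl, hlN⟩ := hD.exists_lv
    choose root r1 r2 using hl.exists_root
    choose J X j1 ch mn using exists_min_chain hC
    have D : Data par p m l root J X := ⟨hl, r1, r2, j1, ch, mn⟩
    obtain ⟨ρ1, Cut1, own1, tgt1, R⟩ := hM V (par1 par root J X) p (D.dp1 hlN)
      (chain1 hl par1_or hC)
    exact ⟨_, _, _, _, D.step R⟩

end Pool.Agent.L7h70.BD
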